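import Pool.Agent.H815.QC.Stm

/-!
# Project QC (MP_c91b70_al): proof of B2 from B1
-/

set_option autoImplicit false

namespace Pool.Agent.H92.QC

open Pool.Agent.Y110.FJ Pool.Agent.T2H65.GP Pool.Agent.H815.QC

/-- the full subgraph on a nonempty set `T` of pairwise nonadjacent vertices: centralizers of elements of full support are
contained in cyclic groups -/
theorem cyc_full (hB1 : S_B1) {W : Type} [Finite W] (Γ : SimpleGraph W) (C : W → Type) [∀ v, Group (C v)]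
    (hC : ∀ v, IsCyclic (C v)) (hind : ∀ s t : W, ¬ Γ.Adj s t) (hne : Nonempty W) (x : GrP Γ C)
    (hx : Mn Γ C (fun _ => True) x) :
    ∃ z : GrP Γ C, ∀ w, w * x = x * w → w ∈ Subgroup.zpowers z := by
  by_cases h2 : ∃ v u : W, u ≠ v
  · have hirr : Irr Γ := by
      rintro T' ⟨t, ht⟩ ⟨s, hs⟩
      exact ⟨t, s, ht, hs, hind t s⟩
    obtain ⟨z, -, hz⟩ := hB1 W Γ C hirr h2 x hx
    exact ⟨z, hz⟩
  · push Not at h2
    obtain ⟨v⟩ := hne
    have h1 : ∀ y : GrP Γ C, y ∈ vg Γ C v := by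
      intro y
      refine gind (p := fun y => y ∈ vg Γ C v) (one_mem _) (fun u b => ?_)
        (fun x y hx hy => mul_mem hx hy) y
      have h3 : u = v := h2 v u
      subst h3
      exact ⟨b, rfl⟩
    obtain ⟨g, hg⟩ := (hC v).exists_generator
    refine ⟨GrP.of Γ C v g, fun y _ => ?_⟩
    obtain ⟨b, rfl⟩ := h1 y
    obtain ⟨n, hn⟩ := hg b
    exact ⟨n, by rw [← hn]; exact (map_zpow (GrP.of Γ C v) g n).symm⟩

/-- **B2** from B1. -/
theorem B2_proof (hB1 : S_B1) : S_B2 := by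
  intro V _ Λ B _ hcyc S hS d hd hd1
  obtain ⟨T, c₀, hT⟩ := exists_Mn Λ B d
  -- `T ⊆ S`
  have hTS : ∀ v, T v → S v := by
    refine Mn_sub Λ B (c := c₀⁻¹) hT ?_
    have h1 : (c₀⁻¹)⁻¹ * (c₀⁻¹ * d * c₀) * c₀⁻¹ = d := by group
    rw [h1]
    exact hd
  obtain ⟨c, hc⟩ : ∃ c, c = er Λ B S c₀ := ⟨_, rfl⟩
  have hcS : c ∈ std Λ B S := by rw [hc]; exact er_mem Λ B S c₀
  obtain ⟨x, hx⟩ : ∃ x, x = c₀⁻¹ * d * c₀ := ⟨_, rfl⟩
  rw [← hx] at hT
  have hxc : c⁻¹ * d * c = x := by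
    have h1 : er Λ B S d = d := (mem_std Λ B).1 hd
    have h2 : er Λ B S x = x := (mem_std Λ B).1 (std_mono Λ B hTS hT.1)
    rw [← h2, hx, map_mul, map_mul, map_inv, h1, ← hc]
  -- `T` is not empty
  have hTne : ∃ t, T t := by
    by_contra h
    push Not at h
    apply hd1
    have h1 : x = 1 := std_bot Λ B h hT.1
    have h2 : d = c * (c⁻¹ * d * c) * c⁻¹ := by group
    rw [h2, hxc, h1]
    group
  obtain ⟨t₀, ht₀⟩ := hTne
  -- the full subgraph on `T`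
  obtain ⟨x₀, hx₀⟩ := hT.1
  have hMn : Mn (Λ.comap (Subtype.val : {v // T v} → V)) (fun w : {v // T v} => B w.1)
      (fun _ => True) x₀ := by
    have h1 := Mn_inc Λ B (p := T) (T := T) (y := x₀) (by rw [hx₀]; exact hT)
    have h2 : (fun w : {v // T v} => T w.1) = (fun _ => True) := by
      funext w
      exact propext ⟨fun _ => trivial, fun _ => w.2⟩
    rw [h2] at h1
    exact h1
  obtain ⟨z₀, hz₀⟩ := cyc_full hB1 (Λ.comap (Subtype.val : {v // T v} → V))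
    (fun w : {v // T v} => B w.1) (fun w => hcyc w.1)
    (fun s t h => hS s.1 t.1 (hTS _ s.2) (hTS _ t.2) h) ⟨⟨t₀, ht₀⟩⟩ x₀ hMn
  refine ⟨c * inc Λ B T z₀ * c⁻¹, fun y hy hyd => ?_⟩
  -- the centralizer
  have hy' : c⁻¹ * y * c ∈ std Λ B S := mul_mem (mul_mem (inv_mem hcS) hy) hcS
  have hcomm : (c⁻¹ * y * c) * x = x * (c⁻¹ * y * c) := by
    rw [← hxc]
    have h1 : c⁻¹ * y * c * (c⁻¹ * d * c) = c⁻¹ * (y * d) * c := by group
    have h2 : c⁻¹ * d * c * (c⁻¹ * y * c) = c⁻¹ * (d * y) * c := by group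
    rw [h1, h2, hyd]
  have hcent := cent_Mn _ V Λ B le_rfl T x hT _ hcomm
  have hle : (Subgroup.centralizer {x} ⊓ std Λ B T) ⊔
      (⨆ v : {v // ∀ t, T t → Λ.Adj v t}, vg Λ B v.1) ≤ (std Λ B T).comap (er Λ B S) := by
    refine sup_le ?_ (iSup_le ?_)
    · rintro z ⟨-, hz⟩
      have h1 : er Λ B S z = z := (mem_std Λ B).1 (std_mono Λ B hTS hz)
      show er Λ B S z ∈ std Λ B T
      rw [h1]
      exact hz
    · rintro ⟨v, hv⟩ _ ⟨b, rfl⟩
      show er Λ B S (GrP.of Λ B v b) ∈ std Λ B T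
      have hvS : ¬ S v := fun h => hS v t₀ h (hTS _ ht₀) (hv t₀ ht₀)
      rw [er_of' Λ B hvS]
      exact one_mem _
  have hyT : c⁻¹ * y * c ∈ std Λ B T := by
    have h1 : er Λ B S (c⁻¹ * y * c) ∈ std Λ B T := hle hcent
    rwa [(mem_std Λ B).1 hy'] at h1
  obtain ⟨w, hw⟩ := hyT
  have hwc : w * x₀ = x₀ * w := by
    apply inc_inj Λ B T
    rw [map_mul, map_mul, hw, hx₀, hcomm]
  obtain ⟨n, hn⟩ := hz₀ w hwc
  refine ⟨n, ?_⟩
  have h1 : y = c * (c⁻¹ * y * c) * c⁻¹ := by group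
  have h2 : (c * inc Λ B T z₀ * c⁻¹) ^ n = c * (inc Λ B T z₀) ^ n * c⁻¹ := conj_zpow
  show (c * inc Λ B T z₀ * c⁻¹) ^ n = y
  rw [h2, h1, ← hw, ← hn]
  show c * inc Λ B T z₀ ^ n * c⁻¹ = c * inc Λ B T (z₀ ^ n) * c⁻¹
  rw [map_zpow]

end Pool.Agent.H92.QC
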